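import Pool.Agent.H71.CQ.Basic

/-!
# Row CLI of cqt_modules: the substructures are not isomorphic
-/

set_option autoImplicit false

open Set

namespace Pool.Agent.H86.CQ

open Pool.Agent.H71.CQ

/-- every component which is isomorphic to the component of `a` is the component of `a` -/
def M1 {L : Type} (N : NF L) {V : Type} (E : V → V → L) (a : V) : Prop :=
  ∀ b, ¬ Wp N E b → PI N E E (Equiv.refl _) a b → Cm N E a b

section

variable {L : Type}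

/-- the structure coded by `S` -/
noncomputable abbrev ES (N : NF L) (e0 : ℕ → ℕ → L) (e : ℕ → ℕ → ℕ → L)
    (g : ∀ j, {x // Wp N e0 x} ≃ {x // Wp N (e j) x}) (x : ℕ → ℕ) (S : Set ℕ) :
    As N e0 e g x S → As N e0 e g x S → L := fun a b => Big N e0 e g a b

/-- the facts from CLM -/
structure Fa (N : NF L) (e0 : ℕ → ℕ → L) (e : ℕ → ℕ → ℕ → L)
    (g : ∀ j, {x // Wp N e0 x} ≃ {x // Wp N (e j) x}) (x : ℕ → ℕ) (S : Set ℕ) : Prop where
  wp : ∀ a : As N e0 e g x S, Wp N (ES N e0 e g x S) a ↔ ∃ k, a.1 = Sum.inl k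
  cm : ∀ (v w : SQ N (fun j : ℕ × ℕ => e j.1)) (hv : Sum.inr v ∈ As N e0 e g x S)
        (hw : Sum.inr w ∈ As N e0 e g x S),
        Cm N (ES N e0 e g x S) ⟨_, hv⟩ ⟨_, hw⟩ ↔ v.1 = w.1 ∧ Cm N (e v.1.1) v.2 w.2

variable {N : NF L} {e0 : ℕ → ℕ → L} {e : ℕ → ℕ → ℕ → L}
    {g : ∀ j, {x // Wp N e0 x} ≃ {x // Wp N (e j) x}} {x : ℕ → ℕ} {S S' : Set ℕ}

theorem inl_mem (k : {x // Wp N e0 x}) :
    (Sum.inl k : SV N e0 (fun j : ℕ × ℕ => e j.1)) ∈ As N e0 e g x S := trivial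

theorem Fa.inr_not (h : Fa N e0 e g x S) (v : SQ N (fun j : ℕ × ℕ => e j.1))
    (hv : Sum.inr v ∈ As N e0 e g x S) : ¬ Wp N (ES N e0 e g x S) ⟨_, hv⟩ := by
  intro hw
  obtain ⟨k, hk⟩ := (h.wp _).1 hw
  cases hk

/-- the algebraic part -/
noncomputable def ph (h : Fa N e0 e g x S) :
    {k // Wp N e0 k} ≃ {a : As N e0 e g x S // Wp N (ES N e0 e g x S) a} :=
  Equiv.ofBijective (fun k => ⟨⟨Sum.inl k, inl_mem k⟩, (h.wp _).2 ⟨k, rfl⟩⟩) (by
    constructor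
    · intro k k' hk
      have h1 := congrArg (fun a => a.1.1) hk
      exact Sum.inl.inj h1
    · rintro ⟨⟨a, ha⟩, hw⟩
      obtain ⟨k, hk⟩ := (h.wp _).1 hw
      refine ⟨k, ?_⟩
      apply Subtype.ext
      apply Subtype.ext
      exact hk.symm)

theorem ph_iso (h : Fa N e0 e g x S) : WIso N e0 (ES N e0 e g x S) (ph h) := fun _ _ => rfl

theorem as_cm {v : SQ N (fun j : ℕ × ℕ => e j.1)} (hv : Sum.inr v ∈ As N e0 e g x S)
    (y : {y // ¬ Wp N (e v.1.1) y}) (hy : Cm N (e v.1.1) v.2 y) :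
    (Sum.inr ⟨v.1, y⟩ : SV N e0 (fun j : ℕ × ℕ => e j.1)) ∈ As N e0 e g x S := by
  obtain ⟨⟨j, i⟩, z, hz⟩ := v
  intro m hm hpi
  obtain ⟨h1, h2⟩ := hv m hm (hpi.of_cm (cm_refl _) hy.symm)
  refine ⟨h1, ?_⟩
  cases h1
  exact h2.trans hy

/-- the component of a piece -/
theorem pi_piece (h : Fa N e0 e g x S) (v : SQ N (fun j : ℕ × ℕ => e j.1))
    (hv : Sum.inr v ∈ As N e0 e g x S) :
    PI N (e v.1.1) (ES N e0 e g x S) ((g v.1.1).symm.trans (ph h)) v.2 ⟨_, hv⟩ := by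
  classical
  let f : {y // Cm N (e v.1.1) v.2 y} → {b // Cm N (ES N e0 e g x S) ⟨_, hv⟩ b} := fun y =>
    ⟨⟨Sum.inr ⟨v.1, y.1, y.2.not_wp v.2.2⟩, as_cm hv ⟨y.1, y.2.not_wp v.2.2⟩ y.2⟩,
      (h.cm v _ hv _).2 ⟨rfl, y.2⟩⟩
  have hf : Function.Bijective f := by
    constructor
    · intro y y' hy
      have h1 := congrArg (fun a => a.1.1) hy
      have h2 := Sum.inr.inj h1
      have h3 := eq_of_heq (Sigma.mk.inj h2).2
      exact Subtype.ext (congrArg (fun a => a.1) h3)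
    · rintro ⟨⟨b, hb⟩, hc⟩
      rcases b with k | w
      · exact absurd ((h.wp _).2 ⟨k, rfl⟩) (hc.not_wp (h.inr_not v hv))
      · obtain ⟨h1, h2⟩ := (h.cm v w hv hb).1 hc
        obtain ⟨j, z, hz⟩ := w
        dsimp only at h1 h2
        subst h1
        exact ⟨⟨z, h2⟩, rfl⟩
  refine ⟨Equiv.ofBijective f hf, ?_, ?_⟩
  · intro y z
    exact if_pos rfl
  · intro k y
    change e v.1.1 (g v.1.1 ((g v.1.1).symm k)) y = e v.1.1 k y
    rw [Equiv.apply_symm_apply]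

theorem w_iso (hR : Rob N e0 e g x) (h : Fa N e0 e g x S) (j : ℕ) :
    WIso N (e j) (ES N e0 e g x S) ((g j).symm.trans (ph h)) :=
  (hR.w j).symm.trans (ph_iso h)

theorem tw_piece (hR : Rob N e0 e g x) (h : Fa N e0 e g x S)
    (v : SQ N (fun j : ℕ × ℕ => e j.1)) (hv : Sum.inr v ∈ As N e0 e g x S) :
    TwI N (e v.1.1) (ES N e0 e g x S) v.2 ⟨_, hv⟩ :=
  ⟨_, w_iso hR h _, pi_piece h v hv⟩

/-- the code -/
def Cd (N : NF L) (e0 : ℕ → ℕ → L) (e : ℕ → ℕ → ℕ → L)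
    (g : ∀ j, {x // Wp N e0 x} ≃ {x // Wp N (e j) x}) (x : ℕ → ℕ) (S : Set ℕ) (m : ℕ) : Prop :=
  ∃ a : As N e0 e g x S, ¬ Wp N (ES N e0 e g x S) a ∧
    TwI N (e m) (ES N e0 e g x S) (x m) a ∧ M1 N (ES N e0 e g x S) a

theorem cd_of_not (hR : Rob N e0 e g x) (h : Fa N e0 e g x S) {m : ℕ} (hm : m ∉ S) :
    Cd N e0 e g x S m := by
  have hmem : (Sum.inr ⟨(m, 0), x m, hR.hx m⟩ : SV N e0 (fun j : ℕ × ℕ => e j.1)) ∈
      As N e0 e g x S := by
    intro m' hm' hpi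
    have hmm : m' = m := by
      by_contra hne
      exact hR.ne m' m hne ⟨_, (hR.w m').symm.trans (hR.w m), hpi⟩
    subst hmm
    exact ⟨rfl, cm_refl _⟩
  refine ⟨⟨_, hmem⟩, h.inr_not _ _, tw_piece hR h ⟨(m, 0), x m, hR.hx m⟩ hmem, ?_⟩
  rintro ⟨b, hb⟩ hbw hpi
  rcases b with k | w
  · exact absurd ((h.wp _).2 ⟨k, rfl⟩) hbw
  · have h1 := (pi_piece h ⟨(m, 0), x m, hR.hx m⟩ hmem).trans
      (hpi.trans (pi_piece h w hb).symm)
    have h2 : ((g m).symm.trans (ph h)).trans ((Equiv.refl _).trans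
        (((g w.1.1).symm.trans (ph h)).symm)) = (g m).symm.trans (g w.1.1) := by
      ext k
      simp
    have h3 : PI N (e m) (e w.1.1) ((g m).symm.trans (g w.1.1)) (x m) w.2 := by
      rw [← h2]
      exact h1
    obtain ⟨h4, h5⟩ := hb m hm h3
    refine (h.cm _ _ _ _).2 ⟨h4.symm, h5⟩

theorem not_cd (hR : Rob N e0 e g x) (h : Fa N e0 e g x S) {m : ℕ} (hm : m ∈ S) :
    ¬ Cd N e0 e g x S m := by
  rintro ⟨⟨a, ha⟩, haw, hatw, haM⟩
  rcases a with k | v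
  · exact haw ((h.wp _).2 ⟨k, rfl⟩)
  obtain ⟨⟨j, i⟩, y, hy⟩ := v
  have htw : TwI N (e m) (e j) (x m) y := hatw.trans (tw_piece hR h ⟨(j, i), y, hy⟩ ha).symm
  have hmem : (Sum.inr ⟨(j, i + 1), y, hy⟩ : SV N e0 (fun j : ℕ × ℕ => e j.1)) ∈
      As N e0 e g x S := by
    intro m' hm' hpi
    exfalso
    have h1 : TwI N (e m') (e j) (x m') y := ⟨_, (hR.w m').symm.trans (hR.w j), hpi⟩
    have hmm : m' = m := by
      by_contra hne
      exact hR.ne m' m hne (h1.trans htw.symm)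
    subst hmm
    exact hm' hm
  have h1 := (pi_piece h ⟨(j, i), y, hy⟩ ha).symm.trans (pi_piece h ⟨(j, i + 1), y, hy⟩ hmem)
  have h2 : PI N (ES N e0 e g x S) (ES N e0 e g x S) (Equiv.refl _) ⟨_, ha⟩ ⟨_, hmem⟩ := by
    have h3 : (((g j).symm.trans (ph h)).symm).trans ((g j).symm.trans (ph h)) =
        Equiv.refl _ := Equiv.symm_trans_self _
    rw [← h3]
    exact h1
  have h4 := haM _ (h.inr_not _ hmem) h2
  have h5 := ((h.cm _ _ _ _).1 h4).1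
  have h6 := congrArg Prod.snd h5
  change i = i + 1 at h6
  omega

theorem cd_iso {h : As N e0 e g x S ≃ As N e0 e g x S'}
    (hh : IsIso (ES N e0 e g x S) (ES N e0 e g x S') h) {m : ℕ} (hc : Cd N e0 e g x S m) :
    Cd N e0 e g x S' m := by
  obtain ⟨a, haw, hatw, haM⟩ := hc
  refine ⟨h a, fun hw => haw ((hh.wp a).1 hw), hatw.trans (hh.twI a), ?_⟩
  intro b hb hpi
  obtain ⟨b, rfl⟩ := h.surjective b
  refine (hh.cm _ _).2 (haM b (fun hw => hb ((hh.wp b).2 hw)) ?_)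
  have h1 := (hh.pi (N := N) a).trans (hpi.trans (hh.pi (N := N) b).symm)
  have h2 : (wmap (N := N) hh).trans ((Equiv.refl _).trans (wmap (N := N) hh).symm) =
      Equiv.refl _ := by
    rw [Equiv.refl_trans, Equiv.self_trans_symm]
  rw [← h2]
  exact h1

end

theorem pf_CLI (hCLM : T_CLM) (_hCLA : T_CLA) : T_CLI := by
  intro L N hSep hF hU e0 e g x hR S S' hiso
  have hfa : ∀ S : Set ℕ, Fa N e0 e g x S := fun S =>
    ⟨(hCLM L N hSep hF hU e0 e g x hR S).2.1, (hCLM L N hSep hF hU e0 e g x hR S).2.2⟩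
  obtain ⟨h, hh⟩ := hiso
  have hh' : IsIso (ES N e0 e g x S) (ES N e0 e g x S') h := hh
  ext m
  constructor
  · intro hm
    by_contra hm'
    exact not_cd hR (hfa S) hm (cd_iso hh'.symm (cd_of_not hR (hfa S') hm'))
  · intro hm
    by_contra hm'
    exact not_cd hR (hfa S') hm (cd_iso hh' (cd_of_not hR (hfa S) hm'))

end Pool.Agent.H86.CQ
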